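import Mathlib

/-!
# Clique-periodicity is not preserved by triangular covering maps

There is a triangular covering map `p : G' → G` of finite connected graphs with `k G ≅ G` but
`k G' ≇ G'`.  Here `G` has 8 vertices and `G'` has 16 vertices.
-/

namespace Pool.Agent.Results.MP_3c8d56_co.PeriodNotReflected

open Finset

/-- A graph together with its vertex set. -/
structure Gr where
  V : Type
  G : SimpleGraph V

/-- `k G`: the vertices are the inclusion-maximal complete sets of vertices, two distinct ones being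
adjacent when they share a vertex. -/
def cliqueGraph {V : Type} (G : SimpleGraph V) : SimpleGraph {s : Set V // Maximal G.IsClique s} where
  Adj s t := s ≠ t ∧ (s.1 ∩ t.1).Nonempty
  symm := ⟨fun s t h => ⟨h.1.symm, by rw [Set.inter_comm]; exact h.2⟩⟩
  loopless := ⟨fun s h => h.1 rfl⟩

/-- The clique operator `k`. -/
def k (X : Gr) : Gr := ⟨{s : Set X.V // Maximal X.G.IsClique s}, cliqueGraph X.G⟩

/-- The closed neighbourhood. -/
def closedNbhd {V : Type} (G : SimpleGraph V) (v : V) : Set V := {w | w = v ∨ G.Adj v w}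

/-- Triangular covering maps: graph homomorphisms between connected graphs whose restriction to
every closed neighbourhood `N[v]` is an isomorphism onto `N[p v]`. -/
structure IsTriangularCover (X Y : Gr) (p : X.V → Y.V) : Prop where
  conn : X.G.Connected
  conn' : Y.G.Connected
  hom : ∀ a b, X.G.Adj a b → Y.G.Adj (p a) (p b)
  bij : ∀ v, Set.BijOn p (closedNbhd X.G v) (closedNbhd Y.G (p v))
  iso : ∀ v, ∀ a ∈ closedNbhd X.G v, ∀ b ∈ closedNbhd X.G v,
    (X.G.Adj a b ↔ Y.G.Adj (p a) (p b))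

/-- The intersection graph of a family of finite sets. -/
def interGraph {n m : ℕ} (c : Fin m → Finset (Fin n)) : SimpleGraph (Fin m) where
  Adj i j := i ≠ j ∧ ∃ x, x ∈ c i ∧ x ∈ c j
  symm := ⟨fun i j h => ⟨h.1.symm, by obtain ⟨x, h1, h2⟩ := h.2; exact ⟨x, h2, h1⟩⟩⟩
  loopless := ⟨fun i h => h.1 rfl⟩

instance {n m : ℕ} (c : Fin m → Finset (Fin n)) : DecidableRel (interGraph c).Adj := fun i j =>
  inferInstanceAs (Decidable (i ≠ j ∧ ∃ x, x ∈ c i ∧ x ∈ c j))

lemma clique_iso {n m : ℕ} (G : SimpleGraph (Fin n)) (c : Fin m → Finset (Fin n))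
    (h1 : ∀ i, ∀ a ∈ c i, ∀ b ∈ c i, a ≠ b → G.Adj a b)
    (h2 : ∀ i, ∃ a ∈ c i, ∃ b ∈ c i, a ≠ b)
    (h3 : ∀ a b, G.Adj a b → ∃ i, a ∈ c i ∧ b ∈ c i)
    (h4 : ∀ i, ∀ a ∈ c i, ∀ b ∈ c i, a ≠ b → ∀ x, G.Adj x a → G.Adj x b → x ∈ c i)
    (h5 : ∀ a, ∃ b, G.Adj a b)
    (h0 : 0 < n)
    (h6 : Function.Injective c) :
    Nonempty (interGraph c ≃g cliqueGraph G) := by
  have hcl : ∀ i, G.IsClique (c i : Set (Fin n)) := by
    intro i a ha b hb hab
    exact h1 i a (by exact_mod_cast ha) b (by exact_mod_cast hb) hab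
  have hmax : ∀ i, Maximal G.IsClique (c i : Set (Fin n)) := by
    intro i
    refine ⟨hcl i, fun t ht hle x hx => ?_⟩
    obtain ⟨a, ha, b, hb, hab⟩ := h2 i
    have hat : a ∈ t := hle (by exact_mod_cast ha)
    have hbt : b ∈ t := hle (by exact_mod_cast hb)
    by_cases hxa : x = a
    · rw [hxa]; exact_mod_cast ha
    by_cases hxb : x = b
    · rw [hxb]; exact_mod_cast hb
    have := h4 i a ha b hb hab x (ht hx hat hxa) (ht hx hbt hxb)
    exact_mod_cast this
  have hsurj : ∀ s : Set (Fin n), Maximal G.IsClique s → ∃ i, (c i : Set (Fin n)) = s := by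
    intro s hs
    -- the set is nonempty
    have hne : s.Nonempty := by
      by_contra hemp
      rw [Set.not_nonempty_iff_eq_empty] at hemp
      have h7 := hs.2 (y := {(⟨0, h0⟩ : Fin n)}) (by simp) (by rw [hemp]; simp)
      have := h7 (Set.mem_singleton _)
      rw [hemp] at this
      exact this
    obtain ⟨a, ha⟩ := hne
    have hb : ∃ b ∈ s, b ≠ a := by
      by_contra hcon
      push Not at hcon
      obtain ⟨b, hb⟩ := h5 a
      have h8 : G.IsClique {a, b} := by
        intro x hx y hy hxy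
        simp only [Set.mem_insert_iff, Set.mem_singleton_iff] at hx hy
        rcases hx with rfl | rfl <;> rcases hy with rfl | rfl
        · exact absurd rfl hxy
        · exact hb
        · exact hb.symm
        · exact absurd rfl hxy
      have h9 : s ⊆ {a, b} := by
        intro x hx
        rw [hcon x hx]
        exact Set.mem_insert _ _
      have h10 := hs.2 h8 h9 (Set.mem_insert_of_mem _ (Set.mem_singleton b))
      have := hcon b h10
      rw [this] at hb
      exact G.loopless.irrefl _ hb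
    obtain ⟨b, hbs, hba⟩ := hb
    obtain ⟨i, hi1, hi2⟩ := h3 a b (hs.1 ha hbs hba.symm)
    refine ⟨i, ?_⟩
    have hsub : s ⊆ (c i : Set (Fin n)) := by
      intro x hx
      by_cases hxa : x = a
      · rw [hxa]; exact_mod_cast hi1
      by_cases hxb : x = b
      · rw [hxb]; exact_mod_cast hi2
      have := h4 i a hi1 b hi2 hba.symm x (hs.1 hx ha hxa) (hs.1 hx hbs hxb)
      exact_mod_cast this
    exact Set.Subset.antisymm (hs.2 (hcl i) hsub) hsub
  let f : Fin m → {s : Set (Fin n) // Maximal G.IsClique s} := fun i => ⟨c i, hmax i⟩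
  have hf : Function.Bijective f := by
    constructor
    · intro i j hij
      apply h6
      have : (c i : Set (Fin n)) = c j := congrArg Subtype.val hij
      exact_mod_cast this
    · rintro ⟨s, hs⟩
      obtain ⟨i, hi⟩ := hsurj s hs
      exact ⟨i, Subtype.ext hi⟩
  refine ⟨⟨Equiv.ofBijective f hf, ?_⟩⟩
  intro i j
  simp only [Equiv.ofBijective_apply, cliqueGraph, interGraph, ne_eq, hf.1.eq_iff]
  constructor
  · rintro ⟨h7, x, hx1, hx2⟩
    exact ⟨h7, x, by simpa [f] using hx1, by simpa [f] using hx2⟩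
  · rintro ⟨h7, x, hx1, hx2⟩
    exact ⟨h7, x, by simpa [f] using hx1, by simpa [f] using hx2⟩

/-- A graph on `Fin n` given by a list of edges. -/
def ofEdges (n : ℕ) (E : List (ℕ × ℕ)) : SimpleGraph (Fin n) where
  Adj a b := a ≠ b ∧ (((a : ℕ), (b : ℕ)) ∈ E ∨ ((b : ℕ), (a : ℕ)) ∈ E)
  symm := ⟨fun a b h => ⟨h.1.symm, h.2.symm⟩⟩
  loopless := ⟨fun a h => h.1 rfl⟩

instance (n : ℕ) (E : List (ℕ × ℕ)) : DecidableRel (ofEdges n E).Adj := fun a b =>
  inferInstanceAs (Decidable (a ≠ b ∧ (((a : ℕ), (b : ℕ)) ∈ E ∨ ((b : ℕ), (a : ℕ)) ∈ E)))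

/-- Two 4-cycles `0 1 2 3` and `4 5 6 7`, and the edges `04`, `05`. -/
def G8 : SimpleGraph (Fin 8) :=
  ofEdges 8 [(0, 1), (1, 2), (2, 3), (3, 0), (4, 5), (5, 6), (6, 7), (7, 4), (0, 4), (0, 5)]

/-- The double cover of `G8` that unwraps the cycle `0 1 2 3`. -/
def G16 : SimpleGraph (Fin 16) :=
  ofEdges 16 [(0, 1), (1, 2), (2, 3), (3, 8), (8, 9), (9, 10), (10, 11), (11, 0),
    (4, 5), (5, 6), (6, 7), (7, 4), (0, 4), (0, 5),
    (12, 13), (13, 14), (14, 15), (15, 12), (8, 12), (8, 13)]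

instance : DecidableRel G8.Adj := inferInstanceAs (DecidableRel (ofEdges 8 _).Adj)
instance : DecidableRel G16.Adj := inferInstanceAs (DecidableRel (ofEdges 16 _).Adj)

/-- The cliques of `G8`. -/
def c8 : Fin 8 → Finset (Fin 8) :=
  ![{0, 4, 5}, {5, 6}, {6, 7}, {7, 4}, {0, 1}, {3, 0}, {2, 3}, {1, 2}]

/-- The cliques of `G16`. -/
def c16 : Fin 16 → Finset (Fin 16) :=
  ![{0, 4, 5}, {5, 6}, {6, 7}, {7, 4}, {0, 1}, {1, 2}, {2, 3}, {3, 8},
    {8, 12, 13}, {13, 14}, {14, 15}, {15, 12}, {8, 9}, {9, 10}, {10, 11}, {11, 0}]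

/-- The projection. -/
def proj (v : Fin 16) : Fin 8 := ⟨(v : ℕ) % 8, Nat.mod_lt _ (by norm_num)⟩

lemma G8_iso : Nonempty (cliqueGraph G8 ≃g G8) := by
  obtain ⟨φ⟩ := clique_iso G8 c8 (by decide) (by decide) (by decide) (by decide) (by decide)
    (by decide) (by decide)
  have h : interGraph c8 = G8 := by
    ext a b
    revert a b
    decide
  rw [h] at φ
  exact ⟨φ.symm⟩

lemma G16_iso : Nonempty (interGraph c16 ≃g cliqueGraph G16) :=
  clique_iso G16 c16 (by decide +kernel) (by decide +kernel) (by decide +kernel)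
    (by decide +kernel) (by decide +kernel) (by decide) (by decide +kernel)

/-- The invariant: a 4-cycle with two adjacent vertices of degree 3. -/
def Has (n : ℕ) (G : SimpleGraph (Fin n)) [DecidableRel G.Adj] : Prop :=
  ∃ a b, G.Adj a b ∧ G.degree a = 3 ∧ G.degree b = 3 ∧
    ∃ c, G.Adj b c ∧ c ≠ a ∧ ∃ d, G.Adj c d ∧ d ≠ b ∧ G.Adj d a

lemma has_G16 : Has 16 G16 := by
  refine ⟨4, 5, ?_, ?_, ?_, 6, ?_, ?_, 7, ?_, ?_, ?_⟩ <;> decide +kernel

lemma not_has_inter : ¬ Has 16 (interGraph c16) := by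
  unfold Has
  decide +kernel

lemma has_of_iso {n : ℕ} {G H : SimpleGraph (Fin n)} [DecidableRel G.Adj] [DecidableRel H.Adj]
    (φ : G ≃g H) (h : Has n G) : Has n H := by
  obtain ⟨a, b, h1, h2, h3, c, h4, h5, d, h6, h7, h8⟩ := h
  refine ⟨φ a, φ b, φ.map_adj_iff.mpr h1, ?_, ?_, φ c, φ.map_adj_iff.mpr h4, ?_, φ d,
    φ.map_adj_iff.mpr h6, ?_, φ.map_adj_iff.mpr h8⟩
  · rw [← h2]; exact φ.degree_eq a
  · rw [← h3]; exact φ.degree_eq b
  · exact fun h => h5 (φ.injective h)
  · exact fun h => h7 (φ.injective h)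

lemma conn_of_lt {n : ℕ} (G : SimpleGraph (Fin (n + 1)))
    (h : ∀ v, v ≠ 0 → ∃ w, w < v ∧ G.Adj w v) : G.Connected := by
  have h1 : ∀ m : ℕ, ∀ v : Fin (n + 1), (v : ℕ) = m → G.Reachable 0 v := by
    intro m
    induction m using Nat.strong_induction_on with
    | _ m ih =>
      intro v hv
      by_cases h0 : v = 0
      · rw [h0]
      · obtain ⟨w, hw1, hw2⟩ := h v h0
        have h2 : (w : ℕ) < m := by rw [← hv]; exact hw1
        exact (ih w h2 w rfl).trans hw2.reachable
  haveI : Nonempty (Fin (n + 1)) := ⟨0⟩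
  exact SimpleGraph.Connected.mk fun u v => (h1 u u rfl).symm.trans (h1 v v rfl)

lemma cover : IsTriangularCover ⟨Fin 16, G16⟩ ⟨Fin 8, G8⟩ proj where
  conn := conn_of_lt G16 (by decide +kernel)
  conn' := conn_of_lt G8 (by decide +kernel)
  hom := by
    show ∀ a b, G16.Adj a b → G8.Adj (proj a) (proj b)
    decide +kernel
  bij := by
    show ∀ v, Set.BijOn proj (closedNbhd G16 v) (closedNbhd G8 (proj v))
    intro v
    refine ⟨?_, ?_, ?_⟩
    · intro w hw
      revert v w
      simp only [closedNbhd, Set.mem_ofPred_eq]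
      decide +kernel
    · intro w hw w' hw'
      revert v w w'
      simp only [closedNbhd, Set.mem_ofPred_eq]
      decide +kernel
    · intro w hw
      revert v w
      simp only [closedNbhd, Set.mem_ofPred_eq, Set.mem_image]
      decide +kernel
  iso := by
    show ∀ v, ∀ a ∈ closedNbhd G16 v, ∀ b ∈ closedNbhd G16 v,
      (G16.Adj a b ↔ G8.Adj (proj a) (proj b))
    simp only [closedNbhd, Set.mem_ofPred_eq]
    decide +kernel

/-- **Periodicity under the clique operator is not preserved by finite triangular covers.**  There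
are finite graphs `X`, `Y` and a triangular covering map `p : X → Y` such that `k Y ≅ Y` but
`k X ≇ X`. -/
theorem result : ∃ (X Y : Gr) (p : X.V → Y.V), Finite X.V ∧ Finite Y.V ∧
    IsTriangularCover X Y p ∧
    ∃ n : ℕ, 1 ≤ n ∧ Nonempty ((k^[n] Y).G ≃g Y.G) ∧ ¬ Nonempty ((k^[n] X).G ≃g X.G) := by
  refine ⟨⟨Fin 16, G16⟩, ⟨Fin 8, G8⟩, proj, inferInstanceAs (Finite (Fin 16)),
    inferInstanceAs (Finite (Fin 8)), cover, 1, le_refl _, G8_iso, ?_⟩
  rintro ⟨φ⟩
  obtain ⟨ψ⟩ := G16_iso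
  have φ' : cliqueGraph G16 ≃g G16 := φ
  exact not_has_inter (has_of_iso (ψ.trans φ').symm has_G16)

end Pool.Agent.Results.MP_3c8d56_co.PeriodNotReflected
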